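import Pool.Agent.D0H29.JT.Final

/-!
# Non-separable subspaces of the dual of the James tree space contain `B` (MP_245e03_an, Q2)

`Tree` is the set of finite 0-1 sequences (`List Bool`), ordered by extension, and `Pre Tree` is the
space of finitely supported functions `x : Tree → ℝ` with the norm
`sup (∑_{S ∈ P} (∑_{i ∈ S} x i)²)^(1/2)`, the supremum over the finite families `P` of pairwise
disjoint segments of `Tree` (`Pool.Agent.R277.JT.Def`).
-/

set_option autoImplicit false

namespace Pool.Agent.Results.MP_245e03_an.NonseparableContainsPredual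

open Pool.Agent.R277.JT UniformSpace

/-- The James tree space: the completion of the finitely supported functions on the dyadic tree. -/
def JT : Type := Completion (Pre Tree)

noncomputable instance : NormedAddCommGroup JT :=
  Completion.instNormedAddCommGroup (Pre Tree)

noncomputable instance : NormedSpace ℝ JT :=
  Completion.instNormedSpace ℝ (Pre Tree)

/-- The embedding of the finitely supported functions into the James tree space. -/
noncomputable def emb (x : Pre Tree) : JT := (x : Completion (Pre Tree))

/-- The dual of a normed space, with the dual norm. -/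
def Dual (E : Type*) [NormedAddCommGroup E] [NormedSpace ℝ E] : Type _ := StrongDual ℝ E

section dual

variable {E : Type*} [NormedAddCommGroup E] [NormedSpace ℝ E]

noncomputable instance : NormedAddCommGroup (Dual E) := ContinuousLinearMap.toNormedAddCommGroup

noncomputable instance : NormedSpace ℝ (Dual E) := ContinuousLinearMap.toNormedSpace

/-- The value of a functional at a vector. -/
noncomputable def Dual.app (f : Dual E) (x : E) : ℝ := (show StrongDual ℝ E from f) x

end dual

/-- `f` is the coordinate functional of the node `α`, that is, the functional biorthogonal to the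
unit vectors: `f x = x α` for all finitely supported `x`. -/
def IsCoord (α : Tree) (f : Dual JT) : Prop := ∀ x : Pre Tree, f.app (emb x) = x.val α

/-- The space `B`: the closed linear span, in `JT*`, of the coordinate functionals of the nodes. -/
noncomputable def B : Submodule ℝ (Dual JT) :=
  (Submodule.span ℝ {f | ∃ α, IsCoord α f}).topologicalClosure

/-- `E` contains `F`: some closed subspace of `E` is isomorphic to `F`. -/
def Contains (E F : Type*) [NormedAddCommGroup E] [NormedSpace ℝ E] [NormedAddCommGroup F]
    [NormedSpace ℝ F] : Prop :=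
  ∃ Z : Submodule ℝ E, IsClosed (Z : Set E) ∧ Nonempty (Z ≃L[ℝ] F)

/-- the identification of `JT*` with the dual of the space of finitely supported functions -/
noncomputable def eD : Dual JT ≃ₗᵢ[ℝ] D Tree := eT

lemma eD_apply (f : Dual JT) (x : Pre Tree) : eD f x = f.app (emb x) := rfl

/-- The coordinate functionals exist (and are unique). -/
theorem exists_coord (α : Tree) : ∃! f : Dual JT, IsCoord α f := by
  refine ⟨eD.symm (Pool.Agent.D0H29.JT.es α), ?_, ?_⟩
  · intro x
    rw [← eD_apply, LinearIsometryEquiv.apply_symm_apply]
    rfl
  · intro g hg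
    rw [LinearIsometryEquiv.eq_symm_apply]
    ext x
    exact hg x

lemma eD_coord {α : Tree} {f : Dual JT} (h : IsCoord α f) : eD f = Pool.Agent.D0H29.JT.es α := by
  ext x
  exact h x

lemma B_le : ∀ f ∈ B, ∀ d : ℕ → Bool, Lm (br d) (eD f) = 0 := by
  intro f hf d
  let K : Submodule ℝ (Dual JT) :=
    LinearMap.ker ((LmC d).comp (eD.toContinuousLinearEquiv : Dual JT →L[ℝ] D Tree)).toLinearMap
  have hK : IsClosed (K : Set (Dual JT)) :=
    ((LmC d).comp (eD.toContinuousLinearEquiv : Dual JT →L[ℝ] D Tree)).isClosed_ker
  have h1 : Submodule.span ℝ {f | ∃ α, IsCoord α f} ≤ K := by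
    rw [Submodule.span_le]
    rintro g ⟨α, hg⟩
    change Lm (br d) (eD g) = 0
    rw [eD_coord hg, Pool.Agent.D0H29.JT.Lm_es]
  have h2 : B ≤ K := Submodule.topologicalClosure_minimal _ h1 hK
  exact h2 hf

/-- Q2: every non-separable closed subspace `Y` of `JT*` contains `B`. -/
theorem result (Y : Submodule ℝ (Dual JT)) (hYc : IsClosed (Y : Set (Dual JT)))
    (hY : ¬ TopologicalSpace.SeparableSpace Y) : Contains Y B := by
  have h0 : CompleteSpace (Dual JT) :=
    inferInstanceAs (CompleteSpace (StrongDual ℝ (Completion (Pre Tree))))
  have hcY : CompleteSpace Y := hYc.completeSpace_coe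
  have hBc : IsClosed (B : Set (Dual JT)) := Submodule.isClosed_topologicalClosure _
  have hcB : CompleteSpace B := hBc.completeSpace_coe
  exact Pool.Agent.D0H29.JT.main_Y (eD.toLinearIsometry.comp Y.subtypeₗᵢ) hY
    (eD.toLinearIsometry.comp B.subtypeₗᵢ) (fun φ d => B_le φ.1 φ.2 d)

end Pool.Agent.Results.MP_245e03_an.NonseparableContainsPredual
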